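import Mathlib
import Pool.Agent.Lib.Pdb20.Affine

/-!
# Free pro-`p` groups have no faithful self-similar actions by affine maps

Let `G` be a free pro-`p` group of finite rank `d ≥ 2`, and identify the alphabet with `ZMod p` by
any bijection `e`. There is no faithful continuous self-similar action of `G` on the `p`-ary tree
that is affine, that is, preserves the relation `u - v + w = t` of words of the same length.
-/

set_option autoImplicit false

open Pdb20 Pdb20.SelfSim

theorem Pool.Agent.Results.MP_db20f3_al.AffineActions.result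
    (p : ℕ) (hp : p.Prime) (d : ℕ) (hd : 2 ≤ d) (G : Type) [Group G] [TopologicalSpace G]
    [IsTopologicalGroup G] [CompactSpace G] [TotallyDisconnectedSpace G] [T2Space G]
    (hG : ∀ N : Subgroup G, IsOpen (N : Set G) → N.Normal → ∃ k : ℕ, N.index = p ^ k)
    (ι : Fin d → G)
    (huniv : ∀ (H : Type) [Group H] [TopologicalSpace H] [IsTopologicalGroup H] [CompactSpace H]
        [TotallyDisconnectedSpace H] [T2Space H],
      (∀ N : Subgroup H, IsOpen (N : Set H) → N.Normal → ∃ k : ℕ, N.index = p ^ k) →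
      ∀ f : Fin d → H, ∃! φ : G →* H, Continuous φ ∧ ∀ i, φ (ι i) = f i)
    (e : Fin p ≃ ZMod p) :
    ¬ ∃ ρ : G →* Equiv.Perm (List (Fin p)),
      Function.Injective ρ ∧
      (∀ v : List (Fin p), IsOpen {g : G | ρ g v = v}) ∧
      (∀ g : G, ρ g [] = []) ∧
      (∀ (g : G) (x : Fin p), ∃ (y : Fin p) (h : G),
        ∀ w : List (Fin p), ρ g (x :: w) = y :: ρ h w) ∧
      (∀ (g : G) (u v w t : List (Fin p)), Pdb20.Par e u v w t →
        Pdb20.Par e (ρ g u) (ρ g v) (ρ g w) (ρ g t)) := by
  rintro ⟨ρ, hinj, hopn, hnil, hss, haff⟩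
  have hF : FreeP p d G ι := freeP_of p hp d G hG ι huniv
  have hS : SelfSim p G ρ := ⟨hinj, hopn, hnil, hss⟩
  exact hS.not_affine hp hd hF haff
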