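import Mathlib
import Pool.Agent.Lib.Pdb20.Entropy

/-!
# Section maps in faithful self-similar actions of free pro-`p` groups do not contract

Let `G` be a free pro-`p` group of finite rank `d ≥ 2` acting faithfully, continuously and
self-similarly on the `p`-ary tree, let `Γ` be a non-abelian abstract subgroup of `G` that is
closed under sections at the vertex `v`, and let `ℓ` be a non-negative subadditive function on
`Γ` with finite balls (for example a word length). Then the section map at `v` does not contract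
`ℓ`: for all `lam < 1` and `C` there is `g ∈ Γ` with `ℓ (g|_v) > lam * ℓ g + C`.
-/

set_option autoImplicit false

open Pdb20 Pdb20.SelfSim

theorem Pool.Agent.Results.MP_db20f3_al.NoContraction.result
    (p : ℕ) (hp : p.Prime) (d : ℕ) (hd : 2 ≤ d) (G : Type) [Group G] [TopologicalSpace G]
    [IsTopologicalGroup G] [CompactSpace G] [TotallyDisconnectedSpace G] [T2Space G]
    (hG : ∀ N : Subgroup G, IsOpen (N : Set G) → N.Normal → ∃ k : ℕ, N.index = p ^ k)
    (ι : Fin d → G)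
    (huniv : ∀ (H : Type) [Group H] [TopologicalSpace H] [IsTopologicalGroup H] [CompactSpace H]
        [TotallyDisconnectedSpace H] [T2Space H],
      (∀ N : Subgroup H, IsOpen (N : Set H) → N.Normal → ∃ k : ℕ, N.index = p ^ k) →
      ∀ f : Fin d → H, ∃! φ : G →* H, Continuous φ ∧ ∀ i, φ (ι i) = f i)
    (ρ : G →* Equiv.Perm (List (Fin p)))
    (hinj : Function.Injective ρ)
    (hopn : ∀ v : List (Fin p), IsOpen {g : G | ρ g v = v})
    (hnil : ∀ g : G, ρ g [] = [])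
    (hss : ∀ (g : G) (x : Fin p), ∃ (y : Fin p) (h : G),
      ∀ w : List (Fin p), ρ g (x :: w) = y :: ρ h w)
    (Γ : Subgroup G) (hΓ : ∃ a ∈ Γ, ∃ b ∈ Γ, a * b ≠ b * a) (v : List (Fin p))
    (hv : ∀ g ∈ Γ, ∀ h : G, (∀ w : List (Fin p), ρ g (v ++ w) = ρ g v ++ ρ h w) → h ∈ Γ)
    (ℓ : G → ℝ) (hℓ0 : ∀ g ∈ Γ, 0 ≤ ℓ g) (hℓm : ∀ g ∈ Γ, ∀ h ∈ Γ, ℓ (g * h) ≤ ℓ g + ℓ h)
    (hℓf : ∀ r : ℝ, {g : G | g ∈ Γ ∧ ℓ g ≤ r}.Finite) (lam C : ℝ) (hlam : lam < 1) :
    ∃ g ∈ Γ, ∃ h : G, (∀ w : List (Fin p), ρ g (v ++ w) = ρ g v ++ ρ h w) ∧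
      lam * ℓ g + C < ℓ h := by
  have hF : FreeP p d G ι := freeP_of p hp d G hG ι huniv
  have hS : SelfSim p G ρ := ⟨hinj, hopn, hnil, hss⟩
  obtain ⟨a, ha, b, hb, hab⟩ := hΓ
  by_contra hcon
  push Not at hcon
  exact hS.no_contraction hp hd hF Γ a b ha hb hab v
    (fun g hg => hv g hg _ (fun w => hS.sec_spec v w g)) ℓ hℓ0 hℓm hℓf lam C hlam
    (fun g hg => hcon g hg _ (fun w => hS.sec_spec v w g))
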