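import Mathlib
import Pool.Agent.Lib.Pdb20.RayD

/-!
# Ray stabilisers in faithful self-similar actions of free pro-`p` groups

Let `G` be a free pro-`p` group of finite rank `d ≥ 2` acting faithfully, continuously and
self-similarly on the `p`-ary tree. Every topologically finitely generated closed subgroup that
contains the stabiliser of a ray is open, and it is larger than the stabiliser. In particular ray
stabilisers are not topologically finitely generated.
-/

set_option autoImplicit false

open Pdb20 Pdb20.SelfSim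

theorem Pool.Agent.Results.MP_db20f3_al.RayStabiliser.result
    (p : ℕ) (hp : p.Prime) (d : ℕ) (hd : 2 ≤ d) (G : Type) [Group G] [TopologicalSpace G]
    [IsTopologicalGroup G] [CompactSpace G] [TotallyDisconnectedSpace G] [T2Space G]
    (hG : ∀ N : Subgroup G, IsOpen (N : Set G) → N.Normal → ∃ k : ℕ, N.index = p ^ k)
    (ι : Fin d → G)
    (huniv : ∀ (H : Type) [Group H] [TopologicalSpace H] [IsTopologicalGroup H] [CompactSpace H]
        [TotallyDisconnectedSpace H] [T2Space H],
      (∀ N : Subgroup H, IsOpen (N : Set H) → N.Normal → ∃ k : ℕ, N.index = p ^ k) →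
      ∀ f : Fin d → H, ∃! φ : G →* H, Continuous φ ∧ ∀ i, φ (ι i) = f i)
    (ρ : G →* Equiv.Perm (List (Fin p)))
    (hinj : Function.Injective ρ)
    (hopn : ∀ v : List (Fin p), IsOpen {g : G | ρ g v = v})
    (hnil : ∀ g : G, ρ g [] = [])
    (hss : ∀ (g : G) (x : Fin p), ∃ (y : Fin p) (h : G),
      ∀ w : List (Fin p), ρ g (x :: w) = y :: ρ h w)
    (ξ : ℕ → Fin p) (s : Finset G)
    (hs : ∀ g : G, (∀ n : ℕ, ρ g ((List.range n).map ξ) = (List.range n).map ξ) →
      g ∈ (Subgroup.closure (s : Set G)).topologicalClosure) :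
    IsOpen ((Subgroup.closure (s : Set G)).topologicalClosure : Set G) ∧
    ∃ g ∈ (Subgroup.closure (s : Set G)).topologicalClosure, ∃ n : ℕ,
      ρ g ((List.range n).map ξ) ≠ (List.range n).map ξ := by
  have hF : FreeP p d G ι := freeP_of p hp d G hG ι huniv
  have hS : SelfSim p G ρ := ⟨hinj, hopn, hnil, hss⟩
  refine ⟨hS.fg_open hp hd hF ξ s hs, ?_⟩
  by_contra hcon
  push Not at hcon
  exact hS.not_fg hp hd hF ξ ⟨s, fun g => ⟨hcon g, hs g⟩⟩
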