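import Mathlib
import Pool.Agent.Lib.Pdb20.Schr

/-!
# Section groups in faithful self-similar actions of free pro-`p` groups

Let `G` be a free pro-`p` group of finite rank `d ≥ 2` acting faithfully, continuously and
self-similarly on the `p`-ary tree. For every vertex `v` the section map `g ↦ g|_v` is injective
on the stabiliser of `v`, and its image is a closed subgroup of `G` whose index is infinite or
exactly `p ^ |v|`.
-/

set_option autoImplicit false

open Pdb20 Pdb20.SelfSim

theorem Pool.Agent.Results.MP_db20f3_al.SectionIndex.result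
    (p : ℕ) (hp : p.Prime) (d : ℕ) (hd : 2 ≤ d) (G : Type) [Group G] [TopologicalSpace G]
    [IsTopologicalGroup G] [CompactSpace G] [TotallyDisconnectedSpace G] [T2Space G]
    (hG : ∀ N : Subgroup G, IsOpen (N : Set G) → N.Normal → ∃ k : ℕ, N.index = p ^ k)
    (ι : Fin d → G)
    (huniv : ∀ (H : Type) [Group H] [TopologicalSpace H] [IsTopologicalGroup H] [CompactSpace H]
        [TotallyDisconnectedSpace H] [T2Space H],
      (∀ N : Subgroup H, IsOpen (N : Set H) → N.Normal → ∃ k : ℕ, N.index = p ^ k) →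
      ∀ f : Fin d → H, ∃! φ : G →* H, Continuous φ ∧ ∀ i, φ (ι i) = f i)
    (ρ : G →* Equiv.Perm (List (Fin p)))
    (hinj : Function.Injective ρ)
    (hopn : ∀ v : List (Fin p), IsOpen {g : G | ρ g v = v})
    (hnil : ∀ g : G, ρ g [] = [])
    (hss : ∀ (g : G) (x : Fin p), ∃ (y : Fin p) (h : G),
      ∀ w : List (Fin p), ρ g (x :: w) = y :: ρ h w)
    (v : List (Fin p)) :
    (∀ g : G, (∀ w : List (Fin p), ρ g (v ++ w) = v ++ w) → g = 1) ∧
    ∃ R : Subgroup G, (∀ h : G, h ∈ R ↔ ∃ g : G, ∀ w : List (Fin p), ρ g (v ++ w) = v ++ ρ h w) ∧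
      IsClosed (R : Set G) ∧ (R.index = 0 ∨ R.index = p ^ v.length) := by
  have hF : FreeP p d G ι := freeP_of p hp d G hG ι huniv
  have hS : SelfSim p G ρ := ⟨hinj, hopn, hnil, hss⟩
  refine ⟨hS.rigid hp (by omega) hF v, ?_⟩
  have key : ∀ h : G, (∃ g : G, ∀ w : List (Fin p), ρ g (v ++ w) = v ++ ρ h w) ↔
      ∃ g ∈ St ρ v, hS.sec v g = h := by
    intro h
    constructor
    · rintro ⟨g, hg⟩
      have hgv : ρ g v = v := by
        have h1 := hg []
        rw [List.append_nil] at h1
        have h2 : ρ h [] = [] := hnil h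
        rw [h2, List.append_nil] at h1
        exact h1
      refine ⟨g, hgv, hS.sec_unique v g h ?_⟩
      intro w
      rw [hg w, hgv]
    · rintro ⟨g, hg, rfl⟩
      refine ⟨g, fun w => ?_⟩
      rw [hS.sec_spec, mem_St.1 hg]
  set R : Subgroup G :=
    { carrier := {h | ∃ g ∈ St ρ v, hS.sec v g = h}
      mul_mem' := by
        rintro _ _ ⟨a, ha, rfl⟩ ⟨b, hb, rfl⟩
        exact ⟨a * b, mul_mem ha hb, hS.sec_mul_of_mem v _ _ hb⟩
      one_mem' := ⟨1, one_mem _, hS.sec_one v⟩
      inv_mem' := by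
        rintro _ ⟨a, ha, rfl⟩
        refine ⟨a⁻¹, inv_mem ha, ?_⟩
        have e := hS.sec_mul_of_mem v a⁻¹ a ha
        rw [inv_mul_cancel, hS.sec_one] at e
        exact eq_inv_of_mul_eq_one_left e.symm } with hR
  have hmem : ∀ h, h ∈ R ↔ ∃ g ∈ St ρ v, hS.sec v g = h := fun h => Iff.rfl
  refine ⟨R, fun h => (hmem h).trans (key h).symm, ?_, hS.index_sec hp hd hF v R hmem⟩
  have himg : (R : Set G) = hS.sec v '' (St ρ v : Set G) := by
    ext h
    exact hmem h
  rw [himg]
  exact ((Subgroup.isClosed_of_isOpen _ (hS.isOpen_St v)).isCompact.image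
    (hS.continuous_sec v)).isClosed
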